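import Pool.Agent.W_7e1bc5_h54.Final

/-!
# MP_7e1bc5_lc: the function `f` up to multipliers

The definitions (`InSharpP`, `PolyNum`, `Multiplier`, `onPairs`, `onGraphs`, `onFams`, `twoVal`,
`copies`, `classes`, `fQ1`) are in `Pool/Agent/W_7e1bc5_h54/Defs.lean`; polynomial time is Mathlib's
`TM2ComputableInPolyTime`.
-/

set_option autoImplicit false

open Turing Computability

namespace Pool.Agent.Results.MP_7e1bc5_lc.UpToMultiplier

open Pool.Agent.W_7e1bc5_h54

/-- Let `k = false` (all positive multipliers `M n` computable in polynomial time) or `k = true`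
(those which moreover divide `(t n)!` for a polynomial `t`, such as `n!`).  If `f` is in `#P` then
the first of the following conditions holds.  The conditions are equivalent: for some multiplier,
`M n` times 1 or 2 (for isomorphic and nonisomorphic pairs), `M n` times 1 or 0, `M n` times the
number of copies of a graph, or `M (m + n)` times the number of isomorphism classes in a list of `m`
graphs, is in `#P`; for all sequences `A > 0` and `B` there is such a multiplier for the values `A n`
and `B n`; for some `A` and `B` with a ratio at least `1 + 1 / r n`, `B` and `B - A` multipliers, the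
function with the values `A n` and `B n` is in `#P`. -/
theorem result (k : Bool) :
    (InSharpP fQ1 → ∃ M : ℕ → ℕ, Multiplier k M ∧
      InSharpP (onPairs fun n G H => M n * twoVal 1 2 G H)) ∧
    List.TFAE [
      ∃ M : ℕ → ℕ, Multiplier k M ∧ InSharpP (onPairs fun n G H => M n * twoVal 1 2 G H),
      ∃ M : ℕ → ℕ, Multiplier k M ∧ InSharpP (onPairs fun n G H => M n * twoVal 1 0 G H),
      ∃ M : ℕ → ℕ, Multiplier k M ∧ InSharpP (onGraphs fun n G => M n * copies G),
      ∃ M : ℕ → ℕ, Multiplier k M ∧ InSharpP (onFams fun m n L => M (m + n) * classes L),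
      ∀ A B : ℕ → ℕ, PolyNum A → PolyNum B → (∀ n, 0 < A n) → ∃ M : ℕ → ℕ, Multiplier k M ∧
        InSharpP (onPairs fun n G H => M n * twoVal (A n) (B n) G H),
      ∃ (A B : ℕ → ℕ) (r : Polynomial ℕ), PolyNum A ∧ Multiplier k B ∧
        Multiplier k (fun n => B n - A n) ∧ (∀ n, (r.eval n + 1) * A n ≤ r.eval n * B n) ∧
        InSharpP (onPairs fun n G H => twoVal (A n) (B n) G H)] :=
  ⟨fQ1_c1 k, tfaeC k⟩

end Pool.Agent.Results.MP_7e1bc5_lc.UpToMultiplier
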